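import Mathlib
import Pool.Agent.U337.EM.Asm
import Pool.Agent.U337.EM.Q2
import Pool.Agent.U337.EM.G
import Pool.Agent.U739.EM.FQ
import Pool.Agent.U375.EM.Z
import Pool.Agent.U574.EM.GR
import Pool.Agent.U928.EM.O
import Pool.Agent.U451.EM.DT
import Pool.Agent.U796.EM.PM
import Pool.Agent.U603.EM.I
import Pool.Agent.U608.EM.A
import Pool.Agent.U454.EM.FX
import Pool.Agent.U324.EM.B
import Pool.Agent.U7.EM.X
import Pool.Agent.U337.EM.TC

set_option autoImplicit false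

namespace Pool.Agent.Results.MP_a5a771_al.MetabelianQuotient

/-- `n` is the derived length of `L`: the least `n` such that the `n`-th derived algebra of `L` is zero. -/
def HasDerivedLength (F L : Type) [Field F] [LieRing L] [LieAlgebra F L] (n : ℕ) : Prop :=
  LieAlgebra.derivedSeries F L n = ⊥ ∧ ∀ m < n, LieAlgebra.derivedSeries F L m ≠ ⊥

theorem iso2 (F : Type) [Field F] [CharZero F] (L : Type) [LieRing L] [LieAlgebra F L]
    [Module.Finite F L] (H : Type) [LieRing H] [LieAlgebra F H]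
    (hU : Nonempty (UniversalEnvelopingAlgebra F L ≃ₐ[F] UniversalEnvelopingAlgebra F H))
    (h2 : LieAlgebra.derivedSeries F L 2 = ⊥) : Nonempty (L ≃ₗ⁅F⁆ H) := by
  refine Pool.Agent.U337.EM.assembly
    (Pool.Agent.U739.EM.FQ.t_FQ (Pool.Agent.U454.EM.FX.t_FX Pool.Agent.U7.EM.X.t_X))
    (Pool.Agent.U375.EM.t_Z Pool.Agent.U608.EM.A.t_A) Pool.Agent.U574.EM.t_GR Pool.Agent.U324.EM.t_B
    (Pool.Agent.U337.EM.T669.t_C Pool.Agent.U608.EM.A.t_A)
    (Pool.Agent.U337.EM.GG.t_G Pool.Agent.U796.EM.t_PM Pool.Agent.U928.EM.t_O Pool.Agent.U451.EM.t_DT)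
    Pool.Agent.U603.EM.t_I F L ?_ H hU
  have h : ∀ a b : L, ⁅a, b⁆ ∈ LieAlgebra.derivedSeries F L 1 := by
    intro a b
    rw [LieAlgebra.derivedSeries_def, LieAlgebra.derivedSeriesOfIdeal_succ,
      LieAlgebra.derivedSeriesOfIdeal_zero]
    exact LieSubmodule.lie_mem_lie (LieSubmodule.mem_top _) (LieSubmodule.mem_top _)
  intro a b c e
  have h3 : ⁅⁅a, b⁆, ⁅c, e⁆⁆ ∈ LieAlgebra.derivedSeriesOfIdeal F L (1 + 1) ⊤ := by
    rw [LieAlgebra.derivedSeriesOfIdeal_succ]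
    exact LieSubmodule.lie_mem_lie (h a b) (h c e)
  have h4 : ⁅⁅a, b⁆, ⁅c, e⁆⁆ ∈ LieAlgebra.derivedSeries F L 2 := h3
  rw [h2] at h4
  exact (LieSubmodule.mem_bot _).1 h4

theorem transfer {F L H : Type} [Field F] [LieRing L] [LieAlgebra F L] [LieRing H] [LieAlgebra F H]
    (e : L ≃ₗ⁅F⁆ H) (n : ℕ) (h : LieAlgebra.derivedSeries F L n = ⊥) :
    LieAlgebra.derivedSeries F H n = ⊥ := by
  have h1 := LieIdeal.derivedSeries_map_eq (f := e.toLieHom) n e.surjective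
  rw [h] at h1
  rw [← h1]
  exact LieIdeal.map_eq_bot_iff.2 bot_le

theorem result (F : Type) [Field F] [CharZero F] (L : Type) [LieRing L] [LieAlgebra F L]
    [Module.Finite F L] (H : Type) [LieRing H] [LieAlgebra F H]
    (hU : Nonempty (UniversalEnvelopingAlgebra F L ≃ₐ[F] UniversalEnvelopingAlgebra F H)) :
    Nonempty ((L ⧸ LieAlgebra.derivedSeries F L 2) ≃ₗ⁅F⁆ (H ⧸ LieAlgebra.derivedSeries F H 2)) ∧
    ∀ n ≤ 2, HasDerivedLength F L n ↔ HasDerivedLength F H n := by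
  refine ⟨?_, ?_⟩
  · exact Pool.Agent.U337.EM.Q.assembly2
      (Pool.Agent.U739.EM.FQ.t_FQ (Pool.Agent.U454.EM.FX.t_FX Pool.Agent.U7.EM.X.t_X))
      (Pool.Agent.U375.EM.t_Z Pool.Agent.U608.EM.A.t_A) Pool.Agent.U324.EM.t_B
      (Pool.Agent.U337.EM.T669.t_C Pool.Agent.U608.EM.A.t_A)
      (Pool.Agent.U337.EM.GG.t_G Pool.Agent.U796.EM.t_PM Pool.Agent.U928.EM.t_O
        Pool.Agent.U451.EM.t_DT) F L H hU
  · have key1 : LieAlgebra.derivedSeries F L 2 = ⊥ → Nonempty (L ≃ₗ⁅F⁆ H) := iso2 F L H hU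
    have key2 : LieAlgebra.derivedSeries F H 2 = ⊥ → Nonempty (L ≃ₗ⁅F⁆ H) := by
      intro h2
      have hdim := Pool.Agent.U574.EM.t_GR F L H hU
      have hrk : Module.rank F H ≤ (Module.finrank F L : Cardinal) := by
        refine rank_le (fun s hs => ?_)
        have h1 := hdim s.card (fun i => (s.equivFin.symm i : H)) (hs.comp _ s.equivFin.symm.injective)
        exact h1
      have hlt : Module.rank F H < Cardinal.aleph0 := lt_of_le_of_lt hrk (Cardinal.natCast_lt_aleph0)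
      have hF : Module.Finite F H := Module.rank_lt_aleph0_iff.1 hlt
      obtain ⟨e⟩ := hU
      obtain ⟨e'⟩ := iso2 F H L ⟨e.symm⟩ h2
      exact ⟨e'.symm⟩
    intro n hn
    constructor
    · rintro ⟨h1, h2⟩
      have h3 : LieAlgebra.derivedSeries F L 2 = ⊥ := by
        rw [eq_bot_iff, ← h1]
        exact LieAlgebra.derivedSeriesOfIdeal_antitone _ hn
      obtain ⟨e⟩ := key1 h3
      exact ⟨transfer e n h1, fun m hm h4 => h2 m hm (transfer e.symm m h4)⟩
    · rintro ⟨h1, h2⟩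
      have h3 : LieAlgebra.derivedSeries F H 2 = ⊥ := by
        rw [eq_bot_iff, ← h1]
        exact LieAlgebra.derivedSeriesOfIdeal_antitone _ hn
      obtain ⟨e⟩ := key2 h3
      exact ⟨transfer e.symm n h1, fun m hm h4 => h2 m hm (transfer e m h4)⟩

end Pool.Agent.Results.MP_a5a771_al.MetabelianQuotient
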